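import Mathlib

/-!
# The measures `wbs` and `swu` of the weak Banach-Saks property differ by more than the factor 2

Let `S` be the family of Schreier sets, `X = ℓ_∞(S)` and `e_n = (1_{n ∈ F})_{F ∈ S}`. The sequence
`(e_n)` is weakly null. Averages of the `e_n` take values in `[0, 1]`, so `wbs {e_n} ≤ 1`; on the
other hand evaluations at Schreier sets show that `swu {e_n} ≥ 1`.
-/

set_option autoImplicit false

open scoped ENNReal Topology BoundedContinuousFunction
open Filter Set

namespace Pool.Agent.Results.MP_b2e8e7_an.Strict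

section defs

variable {X : Type*} [NormedAddCommGroup X] [NormedSpace ℝ X]

/-- `ca (x_k) = inf_n sup {‖x_k - x_l‖ : k, l ≥ n}`. -/
noncomputable def ca (x : ℕ → X) : ℝ≥0∞ :=
  ⨅ n : ℕ, ⨆ (k : ℕ) (l : ℕ) (_ : n ≤ k) (_ : n ≤ l), edist (x k) (x l)

/-- `cca (x_k)` is `ca` of the sequence of arithmetic means. -/
noncomputable def cca (x : ℕ → X) : ℝ≥0∞ :=
  ca fun k => ((k : ℝ) + 1)⁻¹ • ∑ i ∈ Finset.range (k + 1), x i

/-- The infimum of `cca` over all subsequences. -/
noncomputable def ccaTilde (x : ℕ → X) : ℝ≥0∞ :=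
  ⨅ (φ : ℕ → ℕ) (_ : StrictMono φ), cca (x ∘ φ)

/-- The sequence `(x_k)` converges weakly to `l`. -/
def WeaklyConverges (x : ℕ → X) (l : X) : Prop :=
  ∀ f : StrongDual ℝ X, Tendsto (fun k => f (x k)) atTop (𝓝 (f l))

/-- `wu (x_k)` for a sequence converging weakly to `l`. -/
noncomputable def wu (x : ℕ → X) (l : X) : ℝ≥0∞ :=
  sInf {ε : ℝ≥0∞ | 0 < ε ∧ ∃ n : ℕ, ∀ f : StrongDual ℝ X, ‖f‖ ≤ 1 →
    {k : ℕ | ε < ‖f (x k - l)‖ₑ}.encard ≤ n}

/-- The infimum of `wu` over all subsequences. -/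
noncomputable def wuTilde (x : ℕ → X) (l : X) : ℝ≥0∞ :=
  ⨅ (φ : ℕ → ℕ) (_ : StrictMono φ), wu (x ∘ φ) l

/-- `(u_k)` generates an `ℓ_1`-spreading model with constant `δ`; the sequence is indexed by
`1, 2, …`, so its `k`-th term is `u k` for `k ≥ 1`. -/
def SpreadingModel (u : ℕ → X) (δ : ℝ) : Prop :=
  ∀ F : Finset ℕ, F.Nonempty → (∀ n ∈ F, F.card ≤ n) → ∀ α : ℕ → ℝ,
    δ * ∑ i ∈ F, |α i| ≤ ‖∑ i ∈ F, α i • u i‖

/-- `wbs A`. -/
noncomputable def wbs (A : Set X) : ℝ≥0∞ :=
  ⨆ (x : ℕ → X) (l : X) (_ : ∀ k, x k ∈ A) (_ : WeaklyConverges x l), ccaTilde x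

/-- `swu A`. -/
noncomputable def swu (A : Set X) : ℝ≥0∞ :=
  ⨆ (x : ℕ → X) (l : X) (_ : ∀ k, x k ∈ A) (_ : WeaklyConverges x l), wuTilde x l

/-- `sm A`. -/
noncomputable def sm (A : Set X) : ℝ≥0∞ :=
  ⨆ (δ : ℝ) (_ : 0 < δ) (_ : ∃ (x : ℕ → X) (l : X), (∀ k, x k ∈ A) ∧ WeaklyConverges x l ∧
    SpreadingModel (fun k => x k - l) δ), ENNReal.ofReal δ

end defs

/-- The Schreier sets. -/
def S : Type := {F : Finset ℕ // ∀ n ∈ F, F.card ≤ n}

instance : TopologicalSpace S := ⊥

instance : DiscreteTopology S := ⟨rfl⟩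

/-- The basis vectors, as functions on the Schreier sets. -/
noncomputable def e (n : ℕ) : S →ᵇ ℝ :=
  BoundedContinuousFunction.ofNormedAddCommGroupDiscrete
    (fun F : S => if n ∈ F.1 then (1 : ℝ) else 0) 1 (by
      intro F
      split_ifs <;> simp)

theorem e_apply (n : ℕ) (F : S) : e n F = if n ∈ F.1 then (1 : ℝ) else 0 := rfl

theorem e_nonneg (n : ℕ) (F : S) : 0 ≤ e n F := by
  rw [e_apply]; split_ifs <;> norm_num

theorem e_le_one (n : ℕ) (F : S) : e n F ≤ 1 := by
  rw [e_apply]; split_ifs <;> norm_num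

theorem norm_e_le (n : ℕ) : ‖e n‖ ≤ 1 :=
  (BoundedContinuousFunction.norm_le zero_le_one).mpr fun F => by
    rw [Real.norm_of_nonneg (e_nonneg n F)]; exact e_le_one n F

theorem sum_apply' {ι : Type*} (s : Finset ι) (x : ι → (S →ᵇ ℝ)) (F : S) :
    (∑ i ∈ s, x i) F = ∑ i ∈ s, x i F := by
  simp [BoundedContinuousFunction.sum_apply]

theorem smul_apply' (c : ℝ) (x : S →ᵇ ℝ) (F : S) : (c • x) F = c * x F := rfl

/-- A functional cannot be bounded below by a positive constant on infinitely many `e_n`. -/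
theorem no_lower (g : StrongDual ℝ (S →ᵇ ℝ)) {c : ℝ} (hc : 0 < c)
    (h : {k | c ≤ g (e k)}.Infinite) : False := by
  classical
  have key : ∀ N : ℕ, ∃ (y : S →ᵇ ℝ) (p : ℕ), c * N ≤ g y ∧
      (∀ F : S, 0 ≤ y F ∧ y F ≤ 2 - (1 / 2) ^ N) ∧ ∀ F : S, (∀ n ∈ F.1, p < n) → y F = 0 := by
    intro N
    induction N with
    | zero => exact ⟨0, 0, by simp, fun F => by norm_num, fun F _ => rfl⟩
    | succ N ih =>
      obtain ⟨y, p, hgy, hy, hyp⟩ := ih
      set b : ℕ := (p + 1) * 2 ^ (N + 1) with hb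
      have hb0 : 0 < b := by positivity
      have hb0' : (0 : ℝ) < b := by exact_mod_cast hb0
      have hinf : ({k | c ≤ g (e k)} \ (Finset.range (p + 1) : Set ℕ)).Infinite :=
        h.sdiff (Finset.finite_toSet _)
      obtain ⟨B, hB, hBc⟩ := hinf.exists_subset_card_eq b
      have hBg : ∀ k ∈ B, c ≤ g (e k) := fun k hk => (hB hk).1
      have hBp : ∀ k ∈ B, p < k := fun k hk => by
        have := (hB hk).2
        simp only [Finset.coe_range, mem_Iio, not_lt] at this
        omega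
      set z : S →ᵇ ℝ := (b : ℝ)⁻¹ • ∑ k ∈ B, e k with hz
      have hzF : ∀ F : S, z F = (b : ℝ)⁻¹ * ∑ k ∈ B, e k F := fun F => by
        rw [hz, smul_apply', sum_apply']
      have hz0 : ∀ F : S, 0 ≤ z F := fun F => by
        rw [hzF]
        exact mul_nonneg (by positivity) (Finset.sum_nonneg fun k _ => e_nonneg k F)
      have hz1 : ∀ F : S, z F ≤ 1 := fun F => by
        rw [hzF]
        have h1 : ∑ k ∈ B, e k F ≤ b := by
          calc ∑ k ∈ B, e k F ≤ ∑ k ∈ B, (1 : ℝ) := Finset.sum_le_sum fun k _ => e_le_one k F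
            _ = b := by simp [hBc]
        calc (b : ℝ)⁻¹ * ∑ k ∈ B, e k F ≤ (b : ℝ)⁻¹ * b := by gcongr
          _ = 1 := inv_mul_cancel₀ hb0'.ne'
      have hzp : ∀ F : S, (∃ n ∈ F.1, n ≤ p) → z F ≤ (1 / 2) ^ (N + 1) := by
        rintro F ⟨n, hn, hnp⟩
        have h1 : ∑ k ∈ B, e k F ≤ p + 1 := by
          have h2 : ∑ k ∈ B, e k F = ((B.filter fun k => k ∈ F.1).card : ℝ) := by
            rw [Finset.sum_congr rfl (fun k _ => e_apply k F), Finset.sum_boole]
          have h3 : (B.filter fun k => k ∈ F.1).card ≤ F.1.card :=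
            Finset.card_le_card fun k hk => (Finset.mem_filter.mp hk).2
          have h4 : F.1.card ≤ p := (F.2 n hn).trans hnp
          rw [h2]
          have : (B.filter fun k => k ∈ F.1).card ≤ p + 1 := by omega
          exact_mod_cast this
        rw [hzF, inv_mul_le_iff₀ hb0']
        refine h1.trans (le_of_eq ?_)
        rw [hb]; push_cast
        rw [mul_assoc, ← mul_pow]; norm_num
      refine ⟨y + z, p + B.sup id + 1, ?_, fun F => ⟨?_, ?_⟩, fun F hF => ?_⟩
      · have h1 : c ≤ g z := by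
          rw [hz, map_smul, smul_eq_mul, map_sum]
          have h2 : (b : ℝ) * c ≤ ∑ k ∈ B, g (e k) := by
            calc (b : ℝ) * c = ∑ k ∈ B, c := by simp [hBc]
              _ ≤ _ := Finset.sum_le_sum fun k hk => hBg k hk
          calc c = (b : ℝ)⁻¹ * (b * c) := by field_simp
            _ ≤ _ := by gcongr
        rw [map_add]
        push_cast
        linarith
      · exact add_nonneg (hy F).1 (hz0 F)
      · rw [BoundedContinuousFunction.coe_add, Pi.add_apply]
        by_cases hF : ∃ n ∈ F.1, n ≤ p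
        · have h1 := hzp F hF
          have h2 := (hy F).2
          have h3 : ((1 : ℝ) / 2) ^ (N + 1) = (1 / 2) ^ N / 2 := by rw [pow_succ]; ring
          rw [h3] at h1 ⊢
          linarith
        · push Not at hF
          rw [hyp F hF, zero_add]
          refine (hz1 F).trans ?_
          have : ((1 : ℝ) / 2) ^ (N + 1) ≤ 1 := pow_le_one₀ (by norm_num) (by norm_num)
          linarith
      · have h1 : y F = 0 := hyp F fun n hn => by have := hF n hn; omega
        have h2 : z F = 0 := by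
          rw [hzF, Finset.sum_eq_zero, mul_zero]
          intro k hk
          rw [e_apply, if_neg]
          intro hkF
          have h3 := hF k hkF
          have h4 : k ≤ B.sup id := Finset.le_sup (f := id) hk
          omega
        rw [BoundedContinuousFunction.coe_add, Pi.add_apply, h1, h2, add_zero]
  obtain ⟨N, hN⟩ := exists_nat_gt (2 * ‖g‖ / c)
  obtain ⟨y, p, hgy, hy, -⟩ := key N
  have h1 : ‖y‖ ≤ 2 := (BoundedContinuousFunction.norm_le (by norm_num)).mpr fun F => by
    rw [Real.norm_of_nonneg (hy F).1]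
    have : (0 : ℝ) ≤ (1 / 2) ^ N := by positivity
    linarith [(hy F).2]
  have h2 : g y ≤ ‖g‖ * 2 := (le_abs_self _).trans
    ((g.le_opNorm y).trans (mul_le_mul_of_nonneg_left h1 (norm_nonneg _)))
  rw [div_lt_iff₀ hc] at hN
  nlinarith

theorem weaklyConverges_e : WeaklyConverges e 0 := by
  intro f
  rw [map_zero]
  by_contra hcon
  rw [Metric.tendsto_atTop] at hcon
  push Not at hcon
  obtain ⟨c, hc, h⟩ := hcon
  have hinf : {k | c ≤ f (e k)}.Infinite ∨ {k | c ≤ (-f) (e k)}.Infinite := by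
    rw [← Set.infinite_union]
    rw [Set.infinite_iff_frequently_cofinite, Nat.cofinite_eq_atTop, frequently_atTop]
    intro N
    obtain ⟨k, hk, hk2⟩ := h N
    refine ⟨k, hk, ?_⟩
    rw [Real.dist_eq, sub_zero] at hk2
    rcases le_abs.mp hk2 with h3 | h3
    · exact Or.inl h3
    · exact Or.inr h3
  rcases hinf with h1 | h1
  · exact no_lower f hc h1
  · exact no_lower (-f) hc h1

/-- Averages of the `e_n` have values in `[0, 1]`. -/
theorem wbs_le : wbs (range e) ≤ 1 := by
  refine iSup_le fun x => iSup_le fun l => iSup_le fun hx => iSup_le fun _ => ?_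
  refine (iInf_le _ id).trans ((iInf_le _ strictMono_id).trans ?_)
  refine (iInf_le _ 0).trans ?_
  refine iSup_le fun k => iSup_le fun l => iSup_le fun _ => iSup_le fun _ => ?_
  have hmean : ∀ (k : ℕ) (F : S), 0 ≤ (((k : ℝ) + 1)⁻¹ • ∑ i ∈ Finset.range (k + 1), x i) F ∧
      (((k : ℝ) + 1)⁻¹ • ∑ i ∈ Finset.range (k + 1), x i) F ≤ 1 := by
    intro k F
    have hv : ∀ i, 0 ≤ x i F ∧ x i F ≤ 1 := fun i => by
      obtain ⟨n, hn⟩ := hx i
      rw [← hn]
      exact ⟨e_nonneg n F, e_le_one n F⟩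
    rw [smul_apply', sum_apply']
    constructor
    · exact mul_nonneg (by positivity) (Finset.sum_nonneg fun i _ => (hv i).1)
    · rw [inv_mul_le_iff₀ (by positivity)]
      calc ∑ i ∈ Finset.range (k + 1), x i F ≤ ∑ i ∈ Finset.range (k + 1), (1 : ℝ) :=
            Finset.sum_le_sum fun i _ => (hv i).2
        _ = ((k : ℝ) + 1) * 1 := by simp
  rw [edist_dist, ← ENNReal.ofReal_one]
  refine ENNReal.ofReal_le_ofReal ?_
  rw [BoundedContinuousFunction.dist_le zero_le_one]
  intro F
  rw [Real.dist_eq, abs_le]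
  have h1 := hmean k F
  have h2 := hmean l F
  constructor
  · have := h1.1
    have := h2.2
    simp only [Function.comp_def, id] at *
    linarith
  · have := h1.2
    have := h2.1
    simp only [Function.comp_def, id] at *
    linarith

/-- Evaluation at Schreier sets. -/
theorem le_swu : 1 ≤ swu (range e) := by
  refine le_iSup_of_le e (le_iSup_of_le 0 (le_iSup_of_le (fun k => mem_range_self k)
    (le_iSup_of_le weaklyConverges_e ?_)))
  refine le_iInf fun φ => le_iInf fun hφ => ?_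
  refine le_sInf ?_
  rintro ε ⟨-, n, hn⟩
  by_contra hε
  push Not at hε
  let F : S := ⟨(Finset.Ico (n + 1) (2 * n + 2)).image φ, by
    intro m hm
    obtain ⟨k, hk, rfl⟩ := Finset.mem_image.mp hm
    have h1 : ((Finset.Ico (n + 1) (2 * n + 2)).image φ).card ≤ n + 1 :=
      Finset.card_image_le.trans (by simp; omega)
    have h2 := hφ.id_le k
    have h3 := (Finset.mem_Ico.mp hk).1
    simp only [id] at h2
    omega⟩
  have hnorm : ‖(BoundedContinuousFunction.evalCLM ℝ F : StrongDual ℝ (S →ᵇ ℝ))‖ ≤ 1 :=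
    ContinuousLinearMap.opNorm_le_bound _ zero_le_one fun y => by
      rw [one_mul]
      exact BoundedContinuousFunction.norm_coe_le_norm y F
  have h1 := hn (BoundedContinuousFunction.evalCLM ℝ F) hnorm
  have h2 : ((Finset.Ico (n + 1) (2 * n + 2) : Finset ℕ) : Set ℕ) ⊆
      {k : ℕ | ε < ‖(BoundedContinuousFunction.evalCLM ℝ F : StrongDual ℝ (S →ᵇ ℝ))
        ((e ∘ φ) k - 0)‖ₑ} := by
    intro k hk
    have h3 : (BoundedContinuousFunction.evalCLM ℝ F : StrongDual ℝ (S →ᵇ ℝ))
        ((e ∘ φ) k - 0) = 1 := by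
      rw [sub_zero, BoundedContinuousFunction.evalCLM_apply]
      simp only [Function.comp_apply, e_apply]
      rw [if_pos]
      exact Finset.mem_image_of_mem _ hk
    rw [mem_ofPred_eq, h3]
    simpa using hε
  have h3 := (Set.encard_le_encard h2).trans h1
  rw [Set.encard_coe_eq_coe_finsetCard] at h3
  simp only [Nat.card_Ico] at h3
  have h4 : 2 * n + 2 - (n + 1) ≤ n := by exact_mod_cast h3
  omega

/-- **Result.** There are a real Banach space and a bounded subset `A` of it with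
`wbs A < 2 swu A`, so that the equalities `wbs A = 2 sm A = 2 swu A` fail. -/
theorem result : ∃ (X : Type) (_ : NormedAddCommGroup X) (_ : NormedSpace ℝ X)
    (_ : CompleteSpace X) (A : Set X), Bornology.IsBounded A ∧ wbs A < 2 * swu A ∧
      ¬ (wbs A = 2 * sm A ∧ 2 * sm A = 2 * swu A) := by
  have h : wbs (range e) < 2 * swu (range e) := by
    calc wbs (range e) ≤ 1 := wbs_le
      _ < 2 * 1 := by norm_num
      _ ≤ 2 * swu (range e) := by gcongr; exact le_swu
  refine ⟨S →ᵇ ℝ, inferInstance, inferInstance, inferInstance, range e, ?_, h, ?_⟩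
  · rw [isBounded_iff_forall_norm_le]
    refine ⟨1, ?_⟩
    rintro _ ⟨n, rfl⟩
    exact norm_e_le n
  · rintro ⟨h1, h2⟩
    exact h.ne (h1.trans h2)

end Pool.Agent.Results.MP_b2e8e7_an.Strict
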